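import Pool.Agent.Q23.AQ.Psi

/-!
# `e^(q)`, `ψ(q)` and periods, for almost all rational numbers `q`

For all but few rational numbers `q` of `[a, b]` (and for all but few `n`-tuples of them simultaneously) the numbers
`e^(λ_i q)` and `ψ(q) = Γ'(q)/Γ(q)` (`ψ(1) = -γ`), together with the periods `π`, `log (q - y_i)`, `K(s)`, `E(s)`,
`K(1 - s)` for `s = (q - α_j) / (γ_j - α_j)` (periods for rational `y_i`, `α_j`, `γ_j`), satisfy no polynomial relation,
not even an approximate one, of given degree and polynomially bounded height.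
-/

set_option autoImplicit false

open Set Filter Topology

namespace Pool.Agent.Results.MP_725b61_nt.ExponentialDigammaPeriods

/-- The complete elliptic integral of the first kind, `K(s) = ∫_0^{π/2} (1 - s sin²θ)^(-1/2) dθ`. -/
noncomputable def K (s : ℝ) : ℝ := ∫ θ in (0 : ℝ)..(Real.pi / 2), 1 / √(1 - s * Real.sin θ ^ 2)

/-- The complete elliptic integral of the second kind, `E(s) = ∫_0^{π/2} (1 - s sin²θ)^(1/2) dθ`. -/
noncomputable def E (s : ℝ) : ℝ := ∫ θ in (0 : ℝ)..(Real.pi / 2), √(1 - s * Real.sin θ ^ 2)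

/-- The digamma function `Γ'/Γ`. -/
noncomputable def digamma (t : ℝ) : ℝ := deriv Real.Gamma t / Real.Gamma t

/-- The `(3 N + m + 1 + k) n + 1` numbers `π` and, for `l < n`: `K(s)`, `E(s)`, `K(1 - s)` for
`s = (q_l - α_j) / (γ_j - α_j)`, `j < N`; `e^(λ_i q_l)`, `i < m`; `ψ(q_l)`; `log (q_l - y_i)`, `i < k`. -/
noncomputable def values {N m k n : ℕ} (α γ : Fin N → ℝ) (lam : Fin m → ℝ) (y : Fin k → ℝ) (q : Fin n → ℚ)
    (z : Option (Fin n × ((Fin N × Fin 3) ⊕ ((Fin m ⊕ Unit) ⊕ Fin k)))) : ℝ :=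
  match z with
  | none => Real.pi
  | some (l, Sum.inl (j, i)) => ![K ((q l - α j) / (γ j - α j)), E ((q l - α j) / (γ j - α j)),
      K (1 - (q l - α j) / (γ j - α j))] i
  | some (l, Sum.inr (Sum.inl (Sum.inl i))) => Real.exp (lam i * q l)
  | some (l, Sum.inr (Sum.inl (Sum.inr _))) => digamma (q l)
  | some (l, Sum.inr (Sum.inr i)) => Real.log (q l - y i)

/-- The `n`-tuples `q` of rational numbers in `[a, b]` with denominators at most `T` for which some nonzero polynomial
in `(3 N + m + 1 + k) n + 1` variables with integer coefficients of absolute value at most `T ^ A`, of degree at most `d`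
in each variable, takes at the numbers `values` a value of absolute value at most `T ^ (-B)`. -/
def Exceptional {N m k : ℕ} (n d : ℕ) (α γ : Fin N → ℝ) (lam : Fin m → ℝ) (y : Fin k → ℝ) (a b A B T : ℝ) :
    Set (Fin n → ℚ) :=
  {q | (∀ l, a ≤ q l ∧ q l ≤ b ∧ ((q l).den : ℝ) ≤ T) ∧
    ∃ P : MvPolynomial (Option (Fin n × ((Fin N × Fin 3) ⊕ ((Fin m ⊕ Unit) ⊕ Fin k)))) ℤ, P ≠ 0 ∧
      (∀ z, P.degreeOf z ≤ d) ∧ (∀ s, |((P.coeff s : ℤ) : ℝ)| ≤ T ^ A) ∧
      |MvPolynomial.aeval (values α γ lam y q) P| ≤ T ^ (-B)}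

/-- Let `λ_1, …, λ_m` be real numbers linearly independent over `ℚ`, `y_1, …, y_k` distinct with `0 < y_i < c`,
`α_1 > ⋯ > α_N > c`, `γ_1 < ⋯ < γ_N`, and `c ≤ a < b` with `a > 0`, `c ≥ 0`, `α_1 < a`, `b < γ_1`. For `n ≥ 1`, `d`,
`A ≥ 0` and `β > 2 - 2 / ((d + 1) ^ ((3 N + m + 1 + k) n + 1) + 1)` there are `B` and `C` such that for all `T ≥ 1` there
are at most `C T ^ (2 (n - 1) + β)` exceptional `n`-tuples (whereas the number of all `n`-tuples of rational numbers in
`[a, b]` with denominators at most `T` is about `T ^ (2 n)`). -/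
theorem result {N m k : ℕ} (n d : ℕ) (hn : 1 ≤ n) (lam : Fin m → ℝ) (hlam : LinearIndependent ℚ lam)
    (α γ : Fin N → ℝ) (y : Fin k → ℝ) (hα : StrictAnti α) (hγ : StrictMono γ) (hy : Function.Injective y)
    (c : ℝ) (hc : 0 ≤ c) (hcα : ∀ j, c < α j) (hcy : ∀ i, 0 < y i ∧ y i < c) (a b : ℝ) (ha : 0 < a) (hab : a < b)
    (hca : c ≤ a) (h : ∀ j, α j < a ∧ b < γ j) (A β : ℝ) (hA : 0 ≤ A)
    (hβ : 2 - 2 / (((d : ℝ) + 1) ^ ((3 * N + m + 1 + k) * n + 1) + 1) < β) :
    ∃ B C : ℝ, ∀ T : ℝ, 1 ≤ T → (Exceptional n d α γ lam y a b A B T).Finite ∧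
      ((Exceptional n d α γ lam y a b A B T).ncard : ℝ) ≤ C * T ^ (2 * ((n : ℝ) - 1) + β) := by
  have hlam' : ∀ z : Fin m → ℤ, ∑ i, (z i : ℝ) * lam i = 0 → z = 0 := by
    intro z hz
    have h1 := Fintype.linearIndependent_iff.1 hlam (fun i => (z i : ℚ)) (by
      rw [← hz]
      refine Finset.sum_congr rfl fun i _ => ?_
      rw [Rat.smul_def]
      push_cast
      ring)
    funext i
    exact_mod_cast h1 i
  set x : Fin k → ℝ := fun i => -y i with hx
  have hxi : Function.Injective x := fun i j hij => hy (neg_injective hij)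
  have hind := Q23.AQ.comb_all' (d := d) (Q23.AQ.ep lam) 0 (fun i t ht => Q23.AQ.ep_an lam i ht)
    (fun a b ha hab => Q23.AQ.ep_ind lam hlam' a b ha hab) α γ x hα hγ hxi c hcα (fun i => by
      simp only [hx]
      linarith [(hcy i).2]) (fun i => by
      simp only [hx, neg_neg]
      exact (hcy i).1) a b hab hc ha hca h
  set U := Sum.elim (fun z : Fin N × Fin 3 => TH818.AP.KC (α z.1) (γ z.1) z.2)
    (Sum.elim (Q23.AQ.ep lam) (TH659.AQ.lf x)) with hU
  have hcard : Fintype.card ((Fin N × Fin 3) ⊕ ((Fin m ⊕ Unit) ⊕ Fin k)) = 3 * N + m + 1 + k := by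
    simp only [Fintype.card_sum, Fintype.card_prod, Fintype.card_fin, Fintype.card_unit]
    ring
  have han : ∀ p, AnalyticOnNhd ℝ (U p) (Icc a b) := by
    rintro (z | i | j) t ht
    · exact TH818.AP.kc_an _ _ ((h z.1).1.trans (hab.trans (h z.1).2)) z.2 t ((h z.1).1.trans_le ht.1)
        (lt_of_le_of_lt ht.2 (h z.1).2)
    · exact Q23.AQ.ep_an lam i (ha.trans_le ht.1)
    · exact TH659.AQ.lf_an x j (by
        simp only [hx]
        linarith [(hcy j).2, ht.1])
  obtain ⟨B, C, h0⟩ := TH659.AQ.polysR (n := n) (d := d) U a b hab han hind hn A β hA (by rw [hcard]; exact hβ)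
  refine ⟨B, C, fun T hT => ?_⟩
  have heq : ∀ q : Fin n → ℚ, values α γ lam y q = TH659.AQ.vR U q := by
    intro q
    funext z
    rcases z with _ | ⟨l, ⟨j, i⟩ | (i | i) | i⟩
    · rfl
    · have hne : γ j - α j ≠ 0 := by linarith [(h j).1, (h j).2]
      fin_cases i
      · rfl
      · rfl
      · show K (1 - (q l - α j) / (γ j - α j)) = TH818.AR.KK ((γ j - q l) / (γ j - α j))
        have : 1 - ((q l : ℝ) - α j) / (γ j - α j) = (γ j - q l) / (γ j - α j) := by
          field_simp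
          ring
        rw [this]
        rfl
    · rfl
    · rfl
    · show Real.log (q l - y i) = Real.log (q l + x i)
      rw [hx, sub_eq_add_neg]
  have heq2 : Exceptional n d α γ lam y a b A B T = TH659.AQ.ExR (n := n) d U a b A B T := by
    unfold Exceptional TH659.AQ.ExR
    simp only [heq]
  rw [heq2]
  exact h0 T hT

end Pool.Agent.Results.MP_725b61_nt.ExponentialDigammaPeriods
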