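import Pool.Agent.Q23.MV.MonoE4

/-!
# Exponentials, `ψ`, `Γ` at the branch points of hyperelliptic curves are independent of the periods of these curves

Let `N = 2 g` be even and `C_e` the curve `y² = ∏ (x - e_r)` of genus `g` with the branch points `e_0, …, e_N` (and `∞`), and let
`x_1, …, x_n` be further points. If `e`, `x` are algebraic, the complete integrals `∫ x^j dx / y` over the segments between
successive branch points, and the incomplete ones, `∫^(x_i) x^j dx / y`, `j < N`, between algebraic points, are periods. By the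
Riemann-Legendre relations all the complete ones are algebraic functions of `e`, of `π` and of the `g (2 g + 1)` ones over
`[e_l, e_(l + 1)]` with `j ≤ l`.

We consider besides the numbers `exp (L_i·e)` (for instance `exp (e_r)`), `ψ^(j)(k_i·e + y_i)` and `Γ(k_i·e + y_i)` (for instance
`ψ(e_r)`; `ψ(1)` is `-γ`). (1) All these functions are algebraically independent over `ℂ(e, x)`. (2) At the points with coordinates
in a number field `F` of bounded degree, of height at most `T`, all these numbers satisfy no polynomial relation of bounded degree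
and of height at most `T^A`, even with arbitrary complex constants (for instance `π`), outside at most `C T^ε` hypersurfaces of
bounded degree. In particular, at these points none of `exp (e_r)`, `ψ(e_r)` is a polynomial of bounded degree and height in
these periods and `π`.
-/

set_option autoImplicit false

open Set Filter Topology NumberField

namespace Pool.Agent.Results.MP_725b61_nt.HyperellipticGammaExponentials

/-- The period `∫ x^j dx / √|∏ (x - e r)|` over the segment `[e l, e (l + 1)]`. -/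
noncomputable def period {N : ℕ} (e : Fin (N + 1) → ℝ) (l j : Fin N) : ℝ :=
  ∫ x in (e l.castSucc)..(e l.succ), x ^ (j : ℕ) / √|∏ r, (x - e r)|

/-- The pairs `(l, j)` with `j ≤ l < N`; their number is `N (N + 1) / 2`. -/
abbrev Lower (N : ℕ) : Type := {k : Fin N × Fin N // k.2 ≤ k.1}

/-- The branch points `e` of a point `(e, x)`. -/
def base {N n : ℕ} (z : Fin (N + 1) ⊕ Fin n → ℂ) : Fin (N + 1) → ℂ := fun r => z (Sum.inl r)

/-- On `U`, the set of the points `z = (e, x)`, `y i` is a continuous branch of `√(∏ (x_i - e_r))`, without zeros, `u i j` is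
analytic in `(e, x_i)` and is an integral of `x^j dx / y` as a function of `x = x_i` (with integration constants depending
on `e`), and `w (l, j)`, `j ≤ l`, is an analytic function of `e` which coincides with the period `∫ x^j dx / √|∏ (x - e r)|`
over `[e l, e (l + 1)]` for all real `e` in a neighbourhood of `e0`. -/
def Branches {N n : ℕ} (U : Set (Fin (N + 1) ⊕ Fin n → ℂ)) (e0 : Fin (N + 1) → ℝ)
    (y : Fin n → (Fin (N + 1) → ℂ) → ℂ → ℂ) (u : Fin n → Fin N → (Fin (N + 1) → ℂ) → ℂ → ℂ)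
    (w : Lower N → (Fin (N + 1) → ℂ) → ℂ) : Prop :=
  (∀ i, ContinuousOn (fun z : Fin (N + 1) ⊕ Fin n → ℂ => y i (base z) (z (Sum.inr i))) U) ∧
  (∀ i j, AnalyticOnNhd ℂ (fun z : Fin (N + 1) ⊕ Fin n → ℂ => u i j (base z) (z (Sum.inr i))) U) ∧
  (∀ z ∈ U, ∀ i, y i (base z) (z (Sum.inr i)) ≠ 0 ∧
    y i (base z) (z (Sum.inr i)) ^ 2 = ∏ r, (z (Sum.inr i) - z (Sum.inl r)) ∧
    ∀ j, HasDerivAt (u i j (base z)) (z (Sum.inr i) ^ (j : ℕ) / y i (base z) (z (Sum.inr i))) (z (Sum.inr i))) ∧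
  (∀ k, AnalyticOnNhd ℂ (fun z : Fin (N + 1) ⊕ Fin n → ℂ => w k (base z)) U) ∧
  ∀ᶠ e : Fin (N + 1) → ℝ in 𝓝 e0, ∀ k : Lower N, w k (fun r => (e r : ℂ)) = ((period e k.1.1 k.1.2 : ℝ) : ℂ)

/-- The set of the points `(e, x)` such that no `k_i·e + y_i` is a pole of `Γ`. -/
def Dom {M n r : ℕ} (k : Fin r → Fin M → ℚ) (c : Fin r → ℂ) : Set (Fin M ⊕ Fin n → ℂ) :=
  {z | ∀ i (m : ℕ), ∑ j, (k i j : ℂ) * z (Sum.inl j) + c i ≠ -m}

/-- The functions of the point `z = (e, x)`: `u i j` (index `inl (i, j)`), `w k` (index `inr (inl k)`), and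
`ψ^(j)(k_i·e + c_i)`, `j < s`, where `ψ = Γ'/Γ` (index `inr (inr (inl (inl (i, j))))`), `Γ(k_i·e + c_i)`
(index `inr (inr (inl (inr i)))`) and `exp(L_i·e)` (index `inr (inr (inr i))`). -/
noncomputable def value {N n r q : ℕ} (s : ℕ) (u : Fin n → Fin N → (Fin (N + 1) → ℂ) → ℂ → ℂ)
    (w : Lower N → (Fin (N + 1) → ℂ) → ℂ) (k : Fin r → Fin (N + 1) → ℚ) (c : Fin r → ℂ) (L : Fin q → Fin (N + 1) → ℝ) :
    (Fin n × Fin N) ⊕ (Lower N ⊕ (((Fin r × Fin s) ⊕ Fin r) ⊕ Fin q)) → (Fin (N + 1) ⊕ Fin n → ℂ) → ℂ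
  | Sum.inl a, z => u a.1 a.2 (base z) (z (Sum.inr a.1))
  | Sum.inr (Sum.inl k), z => w k (base z)
  | Sum.inr (Sum.inr (Sum.inl (Sum.inl p))), z =>
    iteratedDeriv (p.2 : ℕ) Complex.digamma (∑ j, (k p.1 j : ℂ) * z (Sum.inl j) + c p.1)
  | Sum.inr (Sum.inr (Sum.inl (Sum.inr i))), z => Complex.Gamma (∑ j, (k i j : ℂ) * z (Sum.inl j) + c i)
  | Sum.inr (Sum.inr (Sum.inr i)), z => Complex.exp (∑ j, (L i j : ℂ) * z (Sum.inl j))

open Classical in
/-- The indicator functions of the sets `{z ∈ ℂ^M : k_i·z ∈ c_i + ℤ}` are linearly independent over `ℚ`. -/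
def Independent {M r : ℕ} (k : Fin r → Fin M → ℚ) (c : Fin r → ℂ) : Prop :=
  ∀ m : Fin r → ℚ, (∀ z : Fin M → ℂ,
    ∑ i, m i * (if ∃ a : ℤ, ∑ j, (k i j : ℂ) * z j = c i + a then 1 else 0) = 0) → m = 0

/-- For every compact subset `L` of `U` and all `m`, `g`, `d`, `A` and `ε > 0` there are `D`, `C`, `T₀` such that for every
number field `F` of degree at most `m`, every embedding `ι` of `F` in `ℂ`, all complex numbers `ξ_1, …, ξ_g` and all
`T ≥ T₀` there are at most `C T^ε` hypersurfaces `Q = 0` of degree at most `D` with the following property. If `x` is a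
point with coordinates in `F` outside these hypersurfaces, with image in `L`, whose coordinates are quotients of two
integers of `F` all of whose conjugates have absolute value at most `T`, then no nonzero polynomial `P` of degree at most
`d` in each variable, with coefficients of the form `∑ ξ_a ι(c_a)`, where the `c_a` are integers of `F` all of whose
conjugates have absolute value at most `T ^ A`, vanishes at the numbers `f y (ι x)`. -/
def FewRelations {X κ : Type} [Fintype X] (U : Set (X → ℂ)) (f : κ → (X → ℂ) → ℂ) : Prop :=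
  ∀ L : Set (X → ℂ), IsCompact L → L ⊆ U → ∀ (m g d : ℕ) (A ε : ℝ), 0 < ε →
    ∃ (D : ℕ) (C T₀ : ℝ), ∀ (F : Type) [Field F] [NumberField F], Module.finrank ℚ F ≤ m → ∀ (ι : F →+* ℂ)
      (ξ : Fin g → ℂ) (T : ℝ), T₀ ≤ T → ∃ Φ : Finset (MvPolynomial X ℂ), (Φ.card : ℝ) ≤ C * T ^ ε ∧
        (∀ Q ∈ Φ, Q ≠ 0 ∧ Q.totalDegree ≤ D) ∧
        ∀ x : X → F, (fun j => ι (x j)) ∈ L →
          (∀ j, ∃ a b : 𝓞 F, b ≠ 0 ∧ (∀ φ : F →+* ℂ, ‖φ a‖ ≤ T ∧ ‖φ b‖ ≤ T) ∧ x j = a / b) →
          (∀ Q ∈ Φ, MvPolynomial.eval (fun j => ι (x j)) Q ≠ 0) →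
          ∀ P : MvPolynomial κ ℂ, P ≠ 0 → (∀ y, P.degreeOf y ≤ d) →
            (∀ s, ∃ c : Fin g → 𝓞 F, (∀ a (φ : F →+* ℂ), ‖φ (c a)‖ ≤ T ^ A) ∧ P.coeff s = ∑ a, ξ a * ι (c a)) →
            MvPolynomial.aeval (fun y => f y (fun j => ι (x j))) P ≠ 0

open Pool.Agent.Q23.MV

/-- the polynomial `∏ (X - e_r)` -/
noncomputable def pol {N : ℕ} (e : Fin (N + 1) → ℝ) : Polynomial ℝ := ∏ r, (Polynomial.X - Polynomial.C (e r))

theorem pol_eval {N : ℕ} (e : Fin (N + 1) → ℝ) (t : ℝ) : (pol e).eval t = ∏ r, (t - e r) := by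
  rw [pol, Polynomial.eval_prod]
  simp

theorem pol_sq {N : ℕ} (e : Fin (N + 1) → ℝ) (he : StrictMono e) : Squarefree (pol e) ∧ N + 1 ≤ (pol e).natDegree := by
  constructor
  · refine Polynomial.Separable.squarefree ?_
    rw [pol]
    exact (Polynomial.separable_prod_X_sub_C_iff).2 he.injective
  · rw [pol, Polynomial.natDegree_finsetProd_X_sub_C_eq_card]
    simp

/-- **Exponentials, `ψ`, `Γ` and periods of hyperelliptic curves.** Let `N` be even and let `U` be a connected open set of points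
`(e_0, …, e_N, x_1, …, x_n)` which contains a real point `(e0, x0)` with `e0_0 < ⋯ < e0_N` and `∏_r (x0_i - e0_r) > 0` for all
`i`, and let `y`, `u`, `w` be branches on `U` as described under `Branches`. Let `k_i` be nonzero rational vectors and `c_i`
complex numbers with linearly independent indicator functions of the sets `{z : k_i·z ∈ c_i + ℤ}`, such that no `k_i·e + c_i` is a
pole of `Γ` on `U`, and `L_i` real vectors, linearly independent over `ℚ`. (1) No nonzero polynomial in the functions `u i j`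
(`i < n`, `j < N`), `w k` (`k` in `Lower N`), `ψ^(j)(k_i·e + c_i)` (`j < s`), `Γ(k_i·e + c_i)` and `exp(L_i·e)` with coefficients
in `ℂ[e, x]` vanishes identically on `U`. (2) There are few relations between their values in the sense of `FewRelations`. -/
theorem result : ∀ (N n r q s : ℕ), Even N → ∀ U : Set (Fin (N + 1) ⊕ Fin n → ℂ), IsOpen U → IsPreconnected U →
    ∀ (e0 : Fin (N + 1) → ℝ) (x0 : Fin n → ℝ), StrictMono e0 → (∀ i, 0 < ∏ r, (x0 i - e0 r)) →
      Sum.elim (fun r => (e0 r : ℂ)) (fun i => (x0 i : ℂ)) ∈ U →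
      ∀ (y : Fin n → (Fin (N + 1) → ℂ) → ℂ → ℂ) (u : Fin n → Fin N → (Fin (N + 1) → ℂ) → ℂ → ℂ)
        (w : Lower N → (Fin (N + 1) → ℂ) → ℂ), Branches U e0 y u w →
      ∀ (k : Fin r → Fin (N + 1) → ℚ) (c : Fin r → ℂ) (L : Fin q → Fin (N + 1) → ℝ), (∀ i, k i ≠ 0) → Independent k c →
        U ⊆ Dom k c → (∀ m : Fin q → ℤ, (∀ j, ∑ i, (m i : ℝ) * L i j = 0) → m = 0) →
        (∀ P : MvPolynomial ((Fin n × Fin N) ⊕ (Lower N ⊕ (((Fin r × Fin s) ⊕ Fin r) ⊕ Fin q)))
            (MvPolynomial (Fin (N + 1) ⊕ Fin n) ℂ), P ≠ 0 →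
          ∃ z ∈ U, MvPolynomial.eval₂ (MvPolynomial.eval z) (fun a => value s u w k c L a z) P ≠ 0) ∧
        FewRelations U (value s u w k c L) := by
  classical
  intro N n r q s hN U hU hUc e0 x0 he0 hx0 h0 y u w ⟨hy, hu, hyu, hwa, hw⟩ k c L hk hind hdom hL
  have hpt : rp e0 x0 ∈ U := h0
  have h0' : (fun r => (e0 r : ℂ)) ∈ DomM k c := fun i m => hdom h0 i m
  have hbase : ∀ z ∈ U, base z ∈ DomM k c := fun z hz i m => hdom hz i m
  have ind : ∀ p : MvPolynomial ((Fin n × Fin N) ⊕ (Lower N ⊕ (((Fin r × Fin s) ⊕ Fin r) ⊕ Fin q)))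
      (MvPolynomial (Fin (N + 1) ⊕ Fin n) ℂ),
      (∀ z ∈ U, Pool.Agent.Y890.MV.evM (value s u w k c L) z p = 0) → p = 0 := by
    refine evM_of_AI U (value s u w k c L) ?_
    have h1 := hyp_ind (p := N + 1) (n := n) (m := N) (κ := Lower N ⊕ (((Fin r × Fin s) ⊕ Fin r) ⊕ Fin q)) pol e0 x0 (by
      filter_upwards [strictMono_near e0 he0] with e he
      exact pol_sq e he) (fun i => by
      have hc : Continuous fun q : (Fin (N + 1) → ℝ) × ℝ => ∏ r, (q.2 - q.1 r) :=
        continuous_finsetProd _ fun r _ => continuous_snd.sub ((continuous_apply r).comp continuous_fst)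
      have h2 : ∀ᶠ q : (Fin (N + 1) → ℝ) × ℝ in 𝓝 (e0, x0 i), 0 < ∏ r, (q.2 - q.1 r) :=
        hc.continuousAt.eventually (lt_mem_nhds (by exact hx0 i))
      filter_upwards [h2] with q hq
      rw [pol_eval]
      exact hq) U hU hpt y u hy (fun i μ x hx => by
        have h2 := (hyu _ hx i).2.1
        rw [pol_eval]
        push_cast
        exact h2) (fun i j z hz => (hyu z hz i).2.2 j) (Sum.elim w (ME.gE s k c L))
      (fun P hP => ME.per_ext hN e0 he0 w hw (ME.gE s k c L) (ME.gE_mer s k c L e0 h0')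
        (fun Q hQ => ME.gE_near s k c hk (fun m hm => hind m fun z => hm z) L hL e0 h0' Q hQ) P hP)
    refine h1.congr fun a z _ => ?_
    rcases a with (a | k | ((p | i) | i)) | j
    · rfl
    · rfl
    · rfl
    · rfl
    · rfl
    · rfl
  refine ⟨fun P hP => ?_, ?_⟩
  · by_contra hcon
    push Not at hcon
    exact hP (ind P hcon)
  · intro Lc hLc hLU m g d A ε hε
    have hbase_an : ∀ z : Fin (N + 1) ⊕ Fin n → ℂ, AnalyticAt ℂ (base : (Fin (N + 1) ⊕ Fin n → ℂ) → _) z := fun z =>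
      analyticAt_pi_iff.2 fun r =>
        (ContinuousLinearMap.proj (R := ℂ) (φ := fun _ : Fin (N + 1) ⊕ Fin n => ℂ) (Sum.inl r)).analyticAt z
    have hg : ∀ a, AnalyticOnNhd ℂ (fun z : Fin (N + 1) ⊕ Fin n → ℂ => ME.gE s k c L a (base z)) U := fun a z hz =>
      AnalyticAt.comp (g := ME.gE s k c L a) (f := base) (ME.gE_an s k c L a _ (hbase z hz)) (hbase_an z)
    have han : ∀ a, AnalyticOnNhd ℂ (value s u w k c L a) U := by
      rintro (a | k | ((p | i) | i))
      · exact hu a.1 a.2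
      · exact hwa k
      · exact hg (Sum.inl (Sum.inl p))
      · exact hg (Sum.inl (Sum.inr i))
      · exact hg (Sum.inr i)
    exact mvFew hUc hU ⟨_, h0⟩ han ind Lc hLc hLU m g d A ε hε

end Pool.Agent.Results.MP_725b61_nt.HyperellipticGammaExponentials
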