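import Mathlib
import Pool.Agent.Q47.AB.Rat
import Pool.Agent.Results.MP_725b61_nt.ExponentialDigammaPeriods

/-!
# `e ^ (λ q)`, `ψ(q)` and periods at rational points: multiples by the products of the elements of two arbitrary dense sets

For a rational number `q` consider the numbers `π`, `e ^ (λ_i q)`, `ψ(q) = Γ'(q)/Γ(q)` (`ψ(1) = -γ`) and the periods
`log (q - y_i)`, `K(s)`, `E(s)`, `K(1 - s)` for `s = (q - α_j) / (γ_j - α_j)` (periods for rational `y_i`, `α_j`, `γ_j`).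
For `n`-tuples of rational numbers in an interval, with denominators at most `T`, with the exception of few tuples, EVERY value `x` of a
nonconstant integer polynomial of bounded degree at these numbers has the following property at all the scales `M` between `T ^ B` and
`T ^ E`: for arbitrary dense sets `A`, `B` of integers the numbers `b x a ^ k c + R_c(a) + y_a`, `(a, c) ∈ A × B`, are uniformly
distributed modulo one with a power saving. If the numbers satisfied a polynomial relation with small coefficients, this would not be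
the case.

The proof uses the bound for the number of the rational points with approximate polynomial relations (`ExponentialDigammaPeriods`, by the
starting file `TH659/AQ`), a bilinear estimate and an inverse theorem for the sums of Weyl (`Q47/DG/EqdK`, `H373R2/NB`).
-/

set_option autoImplicit false

namespace Pool.Agent.Results.MP_725b61_nt.PairsFromDenseSets

open Finset Polynomial
open Pool.Agent.Results.MP_725b61_nt.ExponentialDigammaPeriods (values K)

/-- Polynomials over two dense sets are uniformly distributed at the scale `M`, with a power saving: for all integers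
`b ≠ 0` with `|b| ≤ M ^ κ`, all degrees `1 ≤ k ≤ K`, all integers `H ≥ M ^ η`, ALL sets `A` of integers in `[0, M)` and `B` of
integers in `[0, H)` with `|A| |B| ≥ M ^ (1 - κ) H`, all real numbers `y_a`, all real polynomials `R_c` of degree less than
`k` and all `0 ≤ u ≤ v ≤ 1`, the number of the pairs `(a, c) ∈ A × B` with the fractional part of
`b x a ^ k c + R_c(a) + y_a` in `[u, v)` is `(v - u) |A| |B|`, up to `|A| |B| M ^ (-κ)`. -/
def PGood (K : ℕ) (η κ : ℝ) (M : ℕ) (x : ℝ) : Prop :=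
  ∀ b : ℤ, b ≠ 0 → |(b : ℝ)| ≤ (M : ℝ) ^ κ → ∀ k : ℕ, 1 ≤ k → k ≤ K → ∀ H : ℕ, (M : ℝ) ^ η ≤ H →
    ∀ A B : Finset ℕ, (∀ a ∈ A, a < M) → (∀ c ∈ B, c < H) → (M : ℝ) ^ (1 - κ) * H ≤ #A * #B →
    ∀ (y : ℕ → ℝ) (R : ℕ → ℝ[X]), (∀ c, (R c).degree < k) → ∀ u v : ℝ, 0 ≤ u → u ≤ v → v ≤ 1 →
      |(#{i ∈ A ×ˢ B | u ≤ Int.fract (b * x * i.1 ^ k * i.2 + (R i.2).eval (i.1 : ℝ) + y i.1) ∧
          Int.fract (b * x * i.1 ^ k * i.2 + (R i.2).eval (i.1 : ℝ) + y i.1) < v} : ℝ) -
        (v - u) * (#A * #B)| ≤ #A * #B * (M : ℝ) ^ (-κ)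

theorem pgood_iff (K : ℕ) (η κ : ℝ) (M : ℕ) (x : ℝ) : PGood K η κ M x ↔ Pool.Agent.Q47.DG.PGood K η κ M x := Iff.rfl

/-- The `n`-tuples `q` of rational numbers in `[lo, hi]` with denominators at most `T` for which there are a nonconstant
polynomial `P` with integer coefficients, of degree at most `d` in each variable, and an integer `M` between `T ^ B` and
`T ^ E` such that the coefficients of `P` are at most `M ^ κ` in absolute value and the value of `P` at the numbers `val q` does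
not have the property `PGood` at the scale `M`. -/
def Bad {n : ℕ} {ι : Type} (val : (Fin n → ℚ) → ι → ℝ) (lo hi : ℝ) (d K : ℕ) (η κ B E T : ℝ) : Set (Fin n → ℚ) :=
  {q | (∀ j, lo ≤ q j ∧ (q j : ℝ) ≤ hi ∧ ((q j).den : ℝ) ≤ T) ∧ ∃ P : MvPolynomial ι ℤ,
    (∀ c : ℤ, P ≠ MvPolynomial.C c) ∧ (∀ x, P.degreeOf x ≤ d) ∧ ∃ M : ℕ, T ^ B ≤ (M : ℝ) ∧ (M : ℝ) ≤ T ^ E ∧
    (∀ c, |((P.coeff c : ℤ) : ℝ)| ≤ (M : ℝ) ^ κ) ∧ ¬ PGood K η κ M (MvPolynomial.aeval (val q) P)}

/-- Let `λ_1, …, λ_l` be real numbers linearly independent over `ℚ`, `y_1, …, y_k` distinct with `0 < y_i < c`,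
`α_1 > ⋯ > α_N > c`, `γ_1 < ⋯ < γ_N`, and `c ≤ a < b` with `a > 0`, `c ≥ 0`, `α_1 < a`, `b < γ_1`. For `n ≥ 1`, `d` and
`β > 2 - 2 / ((d + 1) ^ ((3 N + l + 1 + k) n + 1) + 1)` there is `B` such that for all `K`, `η > 0` and `E` there are `κ > 0` and
`C` such that for all `T ≥ 1` at most `C T ^ (2 (n - 1) + β)` of the `n`-tuples of rational numbers in `[a, b]` with denominators
at most `T` are bad. -/
theorem result {N l k : ℕ} (n d : ℕ) (hn : 1 ≤ n) (lam : Fin l → ℝ) (hlam : LinearIndependent ℚ lam)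
    (α γ : Fin N → ℝ) (y : Fin k → ℝ) (hα : StrictAnti α) (hγ : StrictMono γ) (hy : Function.Injective y)
    (c : ℝ) (hc : 0 ≤ c) (hcα : ∀ j, c < α j) (hcy : ∀ i, 0 < y i ∧ y i < c) (a b : ℝ) (ha : 0 < a) (hab : a < b)
    (hca : c ≤ a) (h : ∀ j, α j < a ∧ b < γ j)
    (β : ℝ) (hβ : 2 - 2 / (((d : ℝ) + 1) ^ ((3 * N + l + 1 + k) * n + 1) + 1) < β) :
    ∃ B : ℝ, 1 ≤ B ∧ ∀ (K : ℕ) (η : ℝ), 0 < η → ∀ E : ℝ, ∃ κ C : ℝ, 0 < κ ∧ ∀ T : ℝ, 1 ≤ T →
        (Bad (values α γ lam y (n := n)) a b d K η κ B E T).Finite ∧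
        ((Bad (values α γ lam y (n := n)) a b d K η κ B E T).ncard : ℝ) ≤ C * T ^ (2 * ((n : ℝ) - 1) + β) := by
  have hpow : 0 ≤ 2 * ((n : ℝ) - 1) + β := by
    have h1 : (1 : ℝ) ≤ n := by exact_mod_cast hn
    have h2 : 2 / (((d : ℝ) + 1) ^ ((3 * N + l + 1 + k) * n + 1) + 1) ≤ 2 := by
      rw [div_le_iff₀ (by positivity)]
      have : (0 : ℝ) ≤ ((d : ℝ) + 1) ^ ((3 * N + l + 1 + k) * n + 1) := by positivity
      linarith
    linarith
  obtain ⟨x, hx⟩ : ∃ x : Fin k → ℝ, x = fun i => -y i := ⟨_, rfl⟩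
  obtain ⟨U, hU⟩ : ∃ U : (Fin N × Fin 3) ⊕ ((Fin l ⊕ Unit) ⊕ Fin k) → ℝ → ℝ,
    U = Sum.elim (fun z : Fin N × Fin 3 => Pool.Agent.TH818.AP.KC (α z.1) (γ z.1) z.2)
      (Sum.elim (Pool.Agent.Q23.AQ.ep lam) (Pool.Agent.TH659.AQ.lf x)) := ⟨_, rfl⟩
  obtain ⟨X, hX0⟩ := Pool.Agent.Q29.Eqd.vR_bound (n := n) U a b (by
    rw [hU]
    rintro (z | i | j) t ht
    · exact (Pool.Agent.TH818.AP.kc_an _ _ ((h z.1).1.trans (hab.trans (h z.1).2)) z.2 t ((h z.1).1.trans_le ht.1)
        (lt_of_le_of_lt ht.2 (h z.1).2)).continuousAt.continuousWithinAt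
    · exact (Pool.Agent.Q23.AQ.ep_an lam i (ha.trans_le ht.1)).continuousAt.continuousWithinAt
    · exact (Pool.Agent.TH659.AQ.lf_an x j (by
        rw [hx]
        linarith [(hcy j).2, ht.1])).continuousAt.continuousWithinAt)
  have hX : ∀ q : Fin n → ℚ, (∀ j, a ≤ q j ∧ (q j : ℝ) ≤ b) → ∀ i, |values α γ lam y q i| ≤ X := by
    intro q hq i
    have heq : values α γ lam y q = Pool.Agent.TH659.AQ.vR U q := by
      rw [hU]
      funext z
      rcases z with _ | ⟨l, ⟨j, i⟩ | (i | i) | i⟩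
      · rfl
      · have hne : γ j - α j ≠ 0 := by linarith [(h j).1, (h j).2]
        fin_cases i
        · rfl
        · rfl
        · show K (1 - (q l - α j) / (γ j - α j)) = Pool.Agent.TH818.AR.KK ((γ j - q l) / (γ j - α j))
          have : 1 - ((q l : ℝ) - α j) / (γ j - α j) = (γ j - q l) / (γ j - α j) := by
            field_simp
            ring
          rw [this]
          rfl
      · rfl
      · rfl
      · show Real.log (q l - y i) = Real.log (q l + x i)
        rw [hx, sub_eq_add_neg]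
    rw [heq]
    exact hX0 q hq i
  obtain ⟨B₀, C₀, h⟩ := Pool.Agent.Results.MP_725b61_nt.ExponentialDigammaPeriods.result n d hn lam hlam α γ y hα hγ hy c hc hcα hcy a b ha
    hab hca h 1 β zero_le_one hβ
  obtain ⟨B, hB, h2⟩ := Pool.Agent.Q47.AB.rat_poly (values α γ lam y (n := n)) d a b X _ hX hpow ⟨B₀, C₀, fun T hT => h T hT⟩
  refine ⟨B, hB, fun K η hη E => ?_⟩
  obtain ⟨κ, C, hκ, h3⟩ := h2 (PGood K η) (Pool.Agent.Q47.DG.Abs.engine_prod K η hη) E
  exact ⟨κ, C, hκ, fun T hT => h3 T hT⟩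

end Pool.Agent.Results.MP_725b61_nt.PairsFromDenseSets
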